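import Mathlib
import Pool.Agent.Helper403_SZ.Final

set_option autoImplicit false

/-!
# The splitting number of a supercompact cardinal can be forced to be singular
-/

namespace Pool.Agent.Results.MP_72b20c_lc.SingularSplitting

open Cardinal Set Pool.Agent.Helper669.Forcing Pool.Agent.Helper669.K Pool.Agent.W873.Tp
open Pool.Agent.Helper403.SZ

/-- If `κ` is supercompact then there is a forcing notion which keeps `κ` regular, preserves all
cardinals from `κ` on, and forces that the splitting number of `κ` is `(2^κ)^{+ω}` (computed in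
the ground model), a singular cardinal of cofinality `ω` above `κ`. -/
theorem result (κ : Cardinal.{0}) (hκ : IsSupercompact κ) :
    ℵ₀ < κ ∧ κ < plusOmega (2 ^ κ) ∧ (plusOmega (2 ^ κ)).ord.cof = ℵ₀ ∧
    ∃ (P : Type) (_ : Preorder P), Nonempty P ∧ ∀ p : P, p ∈ StaysRegular P κ ∧
      p ∈ PreservesFrom P κ ∧ p ∈ SplittingNumberIs P κ (plusOmega (2 ^ κ)) := by
  have hlt : ∀ n, plus (2 ^ κ) n < plus (2 ^ κ) (n + 1) := fun n => Order.lt_succ _
  have hb : BddAbove (Set.range fun n => plus (2 ^ κ) n) := Cardinal.bddAbove_of_small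
  have hle : ∀ n, plus (2 ^ κ) n < plusOmega (2 ^ κ) := fun n =>
    (hlt n).trans_le (le_ciSup hb (n + 1))
  have hκ' : κ < plusOmega (2 ^ κ) := (Cardinal.cantor κ).trans (hle 0)
  refine ⟨hκ.1, hκ', ?_, final κ hκ⟩
  have hω : ℵ₀ ≤ plusOmega (2 ^ κ) := hκ.1.le.trans hκ'.le
  refine le_antisymm ?_ ?_
  · have h1 : (plusOmega (2 ^ κ)).ord = ⨆ n, (plus (2 ^ κ) n).ord := by
      refine le_antisymm ?_ ?_
      · rw [Cardinal.ord_le]
        refine ciSup_le' fun n => ?_
        have h2 : (plus (2 ^ κ) n).ord ≤ ⨆ n, (plus (2 ^ κ) n).ord :=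
          Ordinal.le_iSup (fun n => (plus (2 ^ κ) n).ord) n
        have h3 := Ordinal.card_le_card h2
        rwa [Cardinal.card_ord] at h3
      · refine Ordinal.iSup_le fun n => ?_
        exact Cardinal.ord_le_ord.2 (hle n).le
    rw [h1]
    refine (Ordinal.cof_iSup_le ?_).trans ?_
    · intro n
      rw [← h1]
      exact Cardinal.ord_lt_ord.2 (hle n)
    · simp
  · rw [Ordinal.aleph0_le_cof]
    exact Cardinal.isSuccLimit_ord hω

end Pool.Agent.Results.MP_72b20c_lc.SingularSplitting
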